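import Pool.Agent.Helper75.FU.StM

set_option autoImplicit false

/-! Project FU (MP_b1e6de_al): the module M6. -/

namespace Pool.Agent.Helper61.FU

open Pool.Agent.Helper75.FU Pool.Agent.Helper91.GU

universe u

theorem hM6 (hB7 : Pool.Agent.Helper91.GU.StB7.{u}) (hM1 : StM1.{u}) (hM3 : StM3.{u})
    (hM4 : StM4.{u}) (hM5 : StM5.{u}) : StM6.{u} := by
  intro p s k hp hs hsp R _ _ _ _ hdim
  induction k with
  | zero =>
    intro N _ L hL D hD hg v hv
    exact hM5 p s 0 hp hs hsp R hdim N L hL D hD hg v hv (fun i => i.elim0)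
  | succ k ih =>
    intro N _ L hL D hD hg v hv
    obtain ⟨κ, hκ⟩ : ∃ κ : Fin (k + 1) → (N →+ ℕ), ∀ i m, κ i m = L m i :=
      ⟨fun i => (Pi.evalAddMonoidHom _ i).comp L, fun i m => rfl⟩
    choose π hπ using fun i => hM3 R N (κ i)
    have hface : ∀ (i : Fin (k + 1)) (v : Unit ⊕ Fin (s + 1) → AddMonoidAlgebra R N), Um v →
        (∀ l, π i (v l) = v l) →
        ∃ g : Matrix (Unit ⊕ Fin (s + 1)) (Unit ⊕ Fin (s + 1)) (AddMonoidAlgebra R N),
          IsUnit g.det ∧ g.map (π i) = g ∧ Matrix.vecMul (row 1 0) g = v := by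
      intro i v hv hfix
      refine hM4 R N (κ i) (s + 1) ?_ (π i) (hπ i) v hv hfix
      obtain ⟨Li, hLi⟩ : ∃ Li : ↥(AddMonoidHom.mker (κ i)) →+ (Fin k → ℕ),
          ∀ m j, Li m j = L (m : N) (i.succAbove j) :=
        ⟨{ toFun := fun m j => L (m : N) (i.succAbove j)
           map_zero' := by funext j; simp
           map_add' := by intro a b; funext j; simp }, fun m j => rfl⟩
      have hker : ∀ m : ↥(AddMonoidHom.mker (κ i)), L (m : N) i = 0 := fun m => by
        rw [← hκ]
        exact m.2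
      refine ih ↥(AddMonoidHom.mker (κ i)) Li ?_ D hD ?_
      · intro a b hab
        apply Subtype.ext
        apply hL
        funext j
        rcases Fin.eq_self_or_eq_succAbove i j with h | ⟨j', h⟩
        · rw [h, hker a, hker b]
        · rw [h, ← hLi a j', ← hLi b j', hab]
      · intro j
        obtain ⟨g, hgj⟩ := hg (i.succAbove j)
        have h0 : κ i g = 0 := by
          rw [hκ, hgj, Pi.single_apply, if_neg (Fin.succAbove_ne i j).symm]
        refine ⟨⟨g, h0⟩, ?_⟩
        funext j'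
        rw [hLi, hgj, Pi.single_apply, Pi.single_apply]
        by_cases h : j' = j
        · rw [h, if_pos rfl, if_pos rfl]
        · rw [if_neg h, if_neg (fun h' => h (Fin.succAbove_right_injective h'))]
    have hcomm : ∀ i j x, π i (π j x) = π j (π i x) := by
      intro i j x
      ext m
      rw [hπ, hπ, hπ, hπ]
      split_ifs <;> rfl
    have hidem : ∀ i x, π i (π i x) = π i x := by
      intro i x
      ext m
      rw [hπ, hπ]
      split_ifs <;> rfl
    obtain ⟨v', hv', hπv⟩ := hM1 (AddMonoidAlgebra R N) (k + 1) (s + 1) π hcomm hidem hface v hv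
    obtain ⟨b1, b2, b3, b4, b5, b6, b7⟩ := (hB7 (AddMonoidAlgebra R N) (AddMonoidAlgebra R N)
      (RingHom.id _)).1 (Unit ⊕ Fin (s + 1))
    refine b3 _ _ _ hv' (hM5 p s (k + 1) hp hs hsp R hdim N L hL D hD hg v' (b5 _ _ hv' hv) ?_)
    intro i m hm l
    have h1 := hπ i (v' l) m
    rw [hκ, if_pos hm, hπv i l] at h1
    exact h1.symm

end Pool.Agent.Helper61.FU
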